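import Pool.Agent.Lib.MP_12eaff_co.H.Fin
import Pool.Agent.Lib.MP_12eaff_co.G.Ifc7

set_option autoImplicit false
set_option linter.unusedSectionVars false

namespace Pool.Agent.Lib.MP_12eaff_co.Acc2

open Finset Pool.Agent.Lib.MP_12eaff_co.BK PV Tr
open scoped Classical

variable {D : ℕ} {V : Type} [Fintype V]

theorem Cy.Tw.vev7 {G : SimpleGraph V} {C : Cy G D} {T : Tr (PG G C.U C.P) D} {st : PV V → C.St}
    {L : Finset (PV V)} (h : Cy.Tw C T st L) :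
    Cy.Tw C T st (L.filter fun e => T.Vev e ∧ ∃ m ∈ T.Dm, (PG G C.U C.P).Adj e m) :=
  ⟨h.a, h.dm, h.s2, h.r, h.z, h.nx, h.px, fun v hv e t K w p => or_iff_not_imp_left.2 fun n =>
    mem_filter.2 ⟨(h.clo v hv e t K w p).resolve_left n, h.vev_of hv p n, inr (e, w),
      h.dm ▸ PD_r, rfl, (C.mem_sl.1 p.he).2,
      (C.sub K p.hK w (C.F_sub ((t.inv K p.hK).subF p.hw))).1, (C.mem_sl.1 p.he).1.symm⟩,
    fun e k => h.late e (mem_filter.1 k).1⟩

theorem no_MC7 (u : UThm7 D 6 4) (hD : 8 ≤ D) (sel : Sel11 D) (G : SimpleGraph V) : ¬ MC G D :=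
  fun h => by
    obtain ⟨C, s0, r, hU⟩ := base_y h hD sel
    obtain ⟨ι, mb, cl, E, pf, hcl, hp⟩ := u V G C.U C.P h hU
    obtain ⟨T, st, q, t, o⟩ := Cy.exists_tw h.deg s0 r mb cl hcl E pf
    exact absurd (hp T q t.a t.dm t.s2 o t.notix) (not_lt.2 t.vev7.total)

theorem bk_from7 (u : UThm7 D 6 4) (hD : 15 ≤ D) (G : SimpleGraph V) [DecidableRel G.Adj]
    (h : D + 1 ≤ G.maxDegree) (hc : G.CliqueFree G.maxDegree) :
    G.Colorable (G.maxDegree - 1) :=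
  St.final (s := 0) (w := D) (by omega) (St.of_MC (no_MC7 u (by omega) (sel11 hD))) G h hc

end Pool.Agent.Lib.MP_12eaff_co.Acc2
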