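import Pool.Agent.Lib.MP_12eaff_co.H.Defs

set_option autoImplicit false
set_option linter.unusedSectionVars false

namespace Pool.Agent.Lib.MP_12eaff_co.Acc2

open Finset
open scoped Classical

namespace Fr

variable {V : Type} [Fintype V] {X : Fr V} {D : ℕ} {c : Sy V} {d : Dy V} {f g : V → ℕ}
  {m u z : V} {y y' : ℕ}

theorem _root_.Pool.Agent.Lib.MP_12eaff_co.Acc2.Sy.P.rng (h : c.P) :
    2 ≤ c.k ∧ c.k ≤ 5 ∧ c.l ≠ 0 ∧ c.l ≠ 1 ∧ c.l ≠ 4 ∧ c.l ≤ 6 := by
  unfold Sy.P at h; omega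

theorem _root_.Pool.Agent.Lib.MP_12eaff_co.Acc2.Sy.S.rng (h : c.S) :
    c.l ≠ 0 ∧ 1 ≤ c.i ∧ 2 ≤ c.k ∧ c.k ≤ 5 := by
  unfold Sy.S at h; omega

theorem _root_.Pool.Agent.Lib.MP_12eaff_co.Acc2.Sy.P.nS (h : c.P) : ¬ c.S := by
  unfold Sy.P at h; unfold Sy.S; omega

theorem fu_not (fu : X.Fu d m) (av : ∀ z, (z, m) ∈ d.pn → g z ≠ c.σ m) :
    ¬ X.See g m (c.σ m) := fun ⟨z, a, b⟩ => av z (fu z a) b

namespace Wy

variable (h : X.Wy D c d f)
include h

theorem rF : d.Rt ⊆ X.F := h.sub.trans h.subF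

theorem cardF : (X.F \ d.Rt).card + d.Rt.card = X.F.card := card_sdiff_add_card_eq_card h.rF

theorem l0 (k : m ∈ d.Rt) : c.l ≠ 0 := fun e => by
  have := h.sub k
  rw [h.r0 e] at this
  exact notMem_empty _ this

theorem rt0 (l : c.l = 0) : d.Rt = ∅ := eq_empty_of_forall_notMem fun _ k => h.l0 k l

theorem sg_lt (l : c.l ≠ 0) (m : V) : c.σ m < D := by
  have := h.la l
  have := h.sg m
  omega

theorem pin_lt (k : (z, m) ∈ d.pn) : c.σ m < D := h.sg_lt (h.l0 (h.p1 z m k).1) m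

theorem sgS (s : c.S) (m : V) : c.σ m = c.α := by
  have := (h.S s).1
  have := h.sg m
  omega

theorem av : ∀ z m, (z, m) ∈ d.pn → f z ≠ c.σ m := fun z m k => (h.p1 z m k).2.2

theorem big (ok : X.OKz) (l : c.l ≠ 0) : 11 ≤ (X.F \ d.Rt).card + c.k ∧ c.k ≤ 5 := by
  have := h.cardF
  have := h.cR l
  have := ok.card
  refine ⟨by omega, ?_⟩
  rcases h.md.resolve_left l with s | p
  exacts [s.rng.2.2.2, p.rng.2.1]

theorem hs_Na (s : c.S) (av : ∀ z m, (z, m) ∈ d.pn → g z ≠ c.σ m) : d.Hs ⊆ X.Na g c.α :=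
  fun m k => mem_Na.2 ⟨h.rF ((h.S s).2.1 k),
    h.sgS s m ▸ fu_not ((h.S s).2.2.2.1 m k) fun z => av z m⟩

theorem nm_one (ok : X.OKz) (s : c.S) (k : m ∈ d.Rt) (av : ∀ z, (z, m) ∈ d.pn → g z ≠ c.σ m) :
    m ∈ X.Nm g c.α := mem_Nm.2 ⟨h.rF k, fun t => by
  rcases (h.S s).2.2.2.2 m k with j | ⟨z, j⟩
  · obtain ⟨x, hx, y, hy, xy, -⟩ := t
    have : 1 < (X.sl m).card := one_lt_card.2 ⟨x, hx, y, hy, xy⟩
    omega
  · exact av z j ((ok.mono1 (h.rF k) t ⟨z, (h.p1 _ _ j).2.1, rfl⟩).trans (h.sgS s _).symm)⟩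

theorem rt_Nm (ok : X.OKz) (s : c.S) (av : ∀ z m, (z, m) ∈ d.pn → g z ≠ c.σ m) :
    d.Rt ⊆ X.Nm g c.α := fun m k => h.nm_one ok s k fun z => av z m

theorem rt_not (p : c.P) (av : ∀ z, (z, m) ∈ d.pn → g z ≠ c.σ m) (hm : m ∈ d.Rt) :
    ¬ (X.See g m c.α ∧ X.See g m c.β) := fun t => by
  have := fu_not ((h.P p).2.1 m hm) av
  rcases h.sg m with e | e <;> rw [e] at this
  exacts [this t.1, this t.2]

theorem T_le (p : c.P) (av : ∀ z m, (z, m) ∈ d.pn → g z ≠ c.σ m) (e : y = c.α ∨ y = c.β) :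
    1 ≤ (X.Na g y).card ∧ (4 ≤ c.k → 2 ≤ (X.Na g y).card) := by
  obtain ⟨a, b, b'⟩ := (h.P p).2.2 y e
  have := card_le_card (s := d.Rt.filter fun m => c.σ m = y) (t := X.Na g y) fun m j => by
    obtain ⟨r, rfl⟩ := mem_filter.1 j
    exact mem_Na.2 ⟨h.rF r, fu_not ((h.P p).2.1 m r) fun z => av z m⟩
  omega

theorem na3 (l : c.l ≠ 0) (hy : y < D) (a : ¬ (y = c.α ∨ y = c.β)) :
    3 ≤ (X.Ns d.Rt f y).card ∧ (c.l = 1 → 4 ≤ (X.Ns d.Rt f y).card) ∧
      (X.Ns d.Rt f y).card ≤ (X.Na f y).card := by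
  have := h.soft.s1 l y hy (fun j => a (.inl j)) fun j => a (.inr j)
  refine ⟨by split_ifs at this <;> omega, fun j => by rwa [if_pos j] at this,
    card_le_card (Ns_Na _ _)⟩

/-- Members that are not rooted do not see another colour twice. -/
theorem nm_off (ok : X.OKz) (l : c.l ≠ 0) (hy : y < D) (n : y ≠ c.α ∨ y ≠ c.β)
    (hu : u ∈ X.F \ d.Rt) : ¬ X.Mono f u y := fun t => by
  have uF := (mem_sdiff.1 hu).1
  rcases h.see l u hu with r | r
  · have := ok.mono1 uF t r.1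
    have := ok.mono1 uF t r.2
    omega
  · exact ok.hl_mono uF r hy t

theorem nm6 (ok : X.OKz) (l : c.l ≠ 0) (hy : y < D) (n : y ≠ c.α ∨ y ≠ c.β) :
    6 ≤ (X.Nm f y).card := by
  have := card_le_card (s := X.F \ d.Rt) (t := X.Nm f y) fun u k =>
    mem_Nm.2 ⟨(mem_sdiff.1 k).1, h.nm_off ok l hy n k⟩
  have := h.big ok l
  omega

theorem nmS (ok : X.OKz) (s : c.S) : c.k + (X.Nt d.Rt f c.α).card ≤ (X.Nm f c.α).card := by
  rw [← h.cR s.rng.1, ← card_union_of_disjoint (disjoint_left.2 fun m p q =>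
    (mem_sdiff.1 (mem_Nt.1 q).1).2 p)]
  exact card_le_card (union_subset (h.rt_Nm ok s h.av) fun m k =>
    mem_Nm.2 ⟨(mem_sdiff.1 (mem_Nt.1 k).1).1, (mem_Nt.1 k).2⟩)

theorem naS (s : c.S) : c.i ≤ (X.Na f c.α).card :=
  (h.S s).2.2.1 ▸ card_le_card (h.hs_Na s h.av)

theorem nbP (ok : X.OKz) (p : c.P) (hy : y < D) (hy' : y' < D) (ne : y ≠ y') :
    c.k ≤ (X.Nb f y y').card ∧
      ((X.Nb f y y').card ≤ c.k → ∀ u ∈ X.F \ d.Rt, X.See f u c.α ∧ X.See f u c.β) := by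
  have b := h.cR p.rng.2.2.1
  exact b ▸ core_P ok (h.P p).1 h.rF (b ▸ p.rng.2.1) (fun m => h.rt_not p fun z => h.av z m)
    (h.see p.rng.2.2.1) hy hy' ne

theorem nbS (ok : X.OKz) (s : c.S) (hy : y < D) (hy' : y' < D) (ne : y ≠ y') :
    4 ≤ (X.Nb f y y').card ∧ (c.l = 1 → 6 ≤ (X.Nb f y y').card) := by
  have l0 := s.rng.1
  have key : ∀ y < D, y ≠ c.α → 4 ≤ (X.Nb f y c.α).card ∧
      (c.l = 1 → 6 ≤ (X.Nb f y c.α).card) := fun y l n => by
    have a := h.na3 l0 l (by have := (h.S s).1; omega)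
    have dj : Disjoint d.Hs (X.Ns d.Rt f y) := disjoint_left.2 fun m p q =>
      (mem_sdiff.1 (mem_Ns.1 q).1).2 ((h.S s).2.1 p)
    have := card_le_card (union_subset ((h.hs_Na s h.av).trans
      (Nb_comm (X := X) (f := f) c.α y ▸ Na_Nb _ _)) ((Ns_Na d.Rt y).trans (Na_Nb y c.α)))
    rw [card_union_of_disjoint dj, (h.S s).2.2.1] at this
    unfold Sy.S at s
    omega
  by_cases e : y' = c.α
  · exact e ▸ key y hy (e ▸ ne)
  by_cases e' : y = c.α
  · exact Nb_comm (X := X) (f := f) y' y ▸ e' ▸ key y' hy' e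
  have sb : X.F \ d.Rt ⊆ X.Nb f y y' := fun u k => by
    have uF := (mem_sdiff.1 k).1
    refine mem_Nb.2 ⟨uF, fun j => (h.see l0 u k).elim (fun t => ?_) fun t =>
      ne (ok.hl1 uF t hy hy' j.1 j.2)⟩
    have := ok.see3 uF j.1 j.2 t.1 ne
    omega
  have := card_le_card sb
  have := h.big ok l0
  exact ⟨by omega, fun _ => by omega⟩

/-- The level does not rise. -/
theorem low (ok : X.OKz) : ¬ X.Gy D f (c.l + 1) := by
  rcases h.md with l | s | p
  · exact l ▸ h.soft.s0 l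
  · have e := (h.S s).1
    have l0 := s.rng.1
    refine not_gy.2 ⟨by omega, fun y a => ?_, fun y a y' b n => ?_, fun y a b => ?_⟩
    · have := h.naS s
      have := h.na3 l0 a
      by_cases j : y = c.α
      · subst j
        unfold Sy.S at s; unfold ta; split_ifs <;> omega
      · unfold ta; split_ifs <;> omega
    · have := h.nbS ok s a b n
      unfold Sy.S at s; unfold tn; split_ifs <;> omega
    · obtain rfl : y = c.α := by_contra fun j => by
        have := h.nm6 ok l0 a (.inl j); omega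
      have := h.naS s
      have := h.nmS ok s
      have := h.soft.s2
      unfold Sy.S at s
      omega
  · have r := p.rng
    refine not_gy.2 ⟨by omega, fun y a => ?_, fun y a y' b n => ?_, fun y a b => ?_⟩
    · have := h.T_le (y := y) p h.av
      have := h.na3 r.2.2.1 a
      unfold Sy.P at p; unfold ta; split_ifs <;> omega
    · have := (h.nbP ok p a b n).1
      unfold Sy.P at p; unfold tn; split_ifs <;> omega
    · have := h.nm6 ok r.2.2.1 a (by have := (h.P p).1; omega)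
      omega

/-- At the full level everything is frozen. -/
theorem fz (ok : X.OKz) (t : X.Gy D f c.l) : X.Fy c d f := by
  rcases h.md with l | s | p
  · exact ⟨fun j => absurd l j, fun j => absurd l j.rng.1, fun j => by omega⟩
  · have e := (h.S s).1
    have l0 := s.rng.1
    have a1 := h.naS s
    have a2 := h.nmS ok s
    have a3 := h.soft.s2
    have key : (X.Na f c.α).card ≤ c.i ∧ (7 ≤ c.l → (X.Nm f c.α).card ≤ c.k) := by
      rcases t with t | ⟨y, a, t⟩ | ⟨y, a, y', b, n, t⟩ | ⟨y, a, t, t'⟩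
      · omega
      · have := h.na3 l0 a
        by_cases j : y = c.α
        · subst j
          unfold Sy.S at s; unfold ta at t; split_ifs at t <;> omega
        · unfold ta at t; split_ifs at t <;> omega
      · have := h.nbS ok s a b n
        unfold Sy.S at s; unfold tn at t; split_ifs at t <;> omega
      · obtain rfl : y = c.α := by_contra fun j => by
          have := h.nm6 ok l0 a (.inl j); omega
        unfold Sy.S at s
        omega
    have one : ∀ u ∈ X.F, u ∉ d.Hs → X.See f u c.α := fun u a b => by_contra fun j => b (by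
      rw [eq_of_subset_of_card_le (h.hs_Na s h.av) ((h.S s).2.2.1 ▸ key.1)]
      exact mem_Na.2 ⟨a, j⟩)
    refine ⟨fun _ u k => ?_, fun _ m k => one m (h.rF k), fun l u k => by_contra fun j => ?_⟩
    · rw [e, and_self]
      exact one u (mem_sdiff.1 k).1 fun j => (mem_sdiff.1 k).2 ((h.S s).2.1 j)
    · have := card_pos.2 ⟨u, mem_Nt.2 ⟨k, j⟩⟩
      have := key.2 l
      omega
  · have r := p.rng
    refine ⟨fun _ => ?_, fun j => absurd j p.nS, fun j => by omega⟩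
    rcases t with t | ⟨y, a, t⟩ | ⟨y, a, y', b, n, t⟩ | ⟨y, a, t, t'⟩
    · omega
    · have := h.T_le (y := y) p h.av
      have := h.na3 r.2.2.1 a
      unfold Sy.P at p; unfold ta at t; split_ifs at t <;> omega
    · refine (h.nbP ok p a b n).2 ?_
      unfold Sy.P at p; unfold tn at t; split_ifs at t <;> omega
    · have := h.nm6 ok r.2.2.1 a (by have := (h.P p).1; omega)
      omega

/-- A colouring that avoids the pins and gains every colour at most twice is valid. -/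
theorem locV (ok : X.OKz) (av : ∀ z m, (z, m) ∈ d.pn → g z ≠ c.σ m)
    (gn : ∀ κ < D, ((X.F.biUnion X.sl).filter fun z => g z = κ ∧ f z ≠ κ).card ≤ 2) :
    X.Vy D g := by
  obtain ⟨N, cN, hN⟩ : ∃ N : ℕ → Finset V, (∀ κ < D, (N κ).card ≤ 2) ∧
      ∀ κ, ∀ w ∈ X.F, w ∉ N κ → ∀ z ∈ X.sl w, g z = κ → f z = κ := by
    refine ⟨fun κ => X.F.filter fun w => ∃ z ∈ X.sl w, g z = κ ∧ f z ≠ κ, fun κ hκ => ?_,
      fun κ w hw n z hz e => ?_⟩
    · refine le_trans (card_le_card_of_forall_subsingleton (fun w z => z ∈ X.sl w) ?_ ?_) (gn κ hκ)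
      · intro w hw
        obtain ⟨hw, z, hz, e⟩ := mem_filter.1 hw
        exact ⟨z, mem_filter.2 ⟨mem_biUnion.2 ⟨w, hw, hz⟩, e⟩, hz⟩
      · intro z _ w hw w' hw'
        exact ok.dis w (mem_filter.1 hw.1).1 w' (mem_filter.1 hw'.1).1 z hw.2 hw'.2
    · by_contra k
      exact n (mem_filter.2 ⟨hw, z, hz, e, k⟩)
  have sN : ∀ κ, ∀ w ∈ X.F, w ∉ N κ → X.See g w κ → X.See f w κ :=
    fun κ w hw n ⟨z, hz, e⟩ => ⟨z, hz, hN κ w hw n z hz e⟩
  have gen : ∀ (A B : Finset V) y, y < D → (∀ w ∈ A, w ∉ N y → w ∈ B) → A.card ≤ B.card + 2 :=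
    fun A B y l k => by
      have := card_le_card (s := A \ N y) (t := B) fun w j =>
        k w (mem_sdiff.1 j).1 (mem_sdiff.1 j).2
      have := le_card_sdiff (N y) A
      have := cN y l
      omega
  have na : ∀ y < D, (X.Na f y).card ≤ (X.Na g y).card + 2 := fun y l => gen _ _ y l fun w a b =>
    mem_Na.2 ⟨(mem_Na.1 a).1, fun t => (mem_Na.1 a).2 (sN y w (mem_Na.1 a).1 b t)⟩
  have nm : ∀ y < D, (X.Nm f y).card ≤ (X.Nm g y).card + 2 := fun y l => gen _ _ y l fun w a b =>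
    mem_Nm.2 ⟨(mem_Nm.1 a).1, fun ⟨z, hz, z', hz', zz, e, e'⟩ => (mem_Nm.1 a).2
      ⟨z, hz, z', hz', zz, hN y w (mem_Nm.1 a).1 b z hz e, hN y w (mem_Nm.1 a).1 b z' hz' e'⟩⟩
  have nb : ∀ y < D, ∀ y' < D, (X.Nb f y y').card ≤ (X.Nb g y y').card + 4 := fun y a y' b => by
    have := card_le_card (s := X.Nb f y y' \ (N y ∪ N y')) (t := X.Nb g y y') fun w k => by
      obtain ⟨k1, k2⟩ := mem_sdiff.1 k
      obtain ⟨k3, k4⟩ := mem_Nb.1 k1
      rw [mem_union, not_or] at k2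
      exact mem_Nb.2 ⟨k3, fun t => k4 ⟨sN y w k3 k2.1 t.1, sN y' w k3 k2.2 t.2⟩⟩
    have := le_card_sdiff (N y ∪ N y') (X.Nb f y y')
    have := card_union_le (N y) (N y')
    have := cN y a
    have := cN y' b
    omega
  by_cases l : c.l = 0
  · obtain ⟨-, s1, s2, s3⟩ := not_gy.1 (h.soft.s0 l)
    refine ⟨fun y a => ?_, fun y a y' b n => ?_, fun y a => ?_⟩
    · have : 3 ≤ _ := s1 y a
      have := na y a; omega
    · have : 6 ≤ _ := s2 y a y' b n
      have := nb y a y' b; omega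
    · have := s3 y a
      have := nm y a
      have := am_le (X := X) (f := f) y
      omega
  have bg := h.big ok l
  have hold : ∀ y, y = c.α ∨ y = c.β → ∃ m ∈ d.Rt, m ∈ X.Na g y := fun y e => by
    rcases h.md.resolve_left l with s | p
    · obtain rfl : y = c.α := by have := (h.S s).1; omega
      obtain ⟨m, k⟩ := card_pos.1 (show 0 < d.Hs.card from (h.S s).2.2.1 ▸ s.rng.2.1)
      exact ⟨m, (h.S s).2.1 k, h.hs_Na s av k⟩
    · obtain ⟨a, b, -⟩ := (h.P p).2.2 y e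
      obtain ⟨m, k⟩ := card_pos.1 (b.trans a)
      obtain ⟨r, rfl⟩ := mem_filter.1 k
      exact ⟨m, r, mem_Na.2 ⟨h.rF r, fu_not ((h.P p).2.1 m r) fun z => av z m⟩⟩
  have soft : ∀ y < D, ¬ (y = c.α ∨ y = c.β) → ∃ m ∉ d.Rt, m ∈ X.Na g y := fun y a n => by
    obtain ⟨w, k, j⟩ := exists_mem_notMem_of_card_lt_card
      (show (N y).card < (X.Ns d.Rt f y).card by have := h.na3 l a n; have := cN y a; omega)
    obtain ⟨k1, k2⟩ := mem_Ns.1 k
    exact ⟨w, (mem_sdiff.1 k1).2, mem_Na.2 ⟨(mem_sdiff.1 k1).1, fun t =>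
      k2 (sN y w (mem_sdiff.1 k1).1 j t)⟩⟩
  have mix : ∀ y, y = c.α ∨ y = c.β → ∀ y' < D, ¬ (y' = c.α ∨ y' = c.β) →
      2 ≤ (X.Nb g y y').card := fun y e y' a n => by
    obtain ⟨m, m1, m2⟩ := hold y e
    obtain ⟨w, w1, w2⟩ := soft y' a n
    exact one_lt_card.2 ⟨m, Na_Nb _ _ m2, w, Nb_comm (X := X) (f := g) y' y ▸ Na_Nb _ _ w2,
      fun j => w1 (j ▸ m1)⟩
  refine ⟨fun y a => ?_, fun y a y' b n => ?_, fun y a => ?_⟩
  · by_cases e : y = c.α ∨ y = c.β
    exacts [(hold y e).elim fun m k => card_pos.2 ⟨m, k.2⟩,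
      (soft y a e).elim fun m k => card_pos.2 ⟨m, k.2⟩]
  · by_cases e : y = c.α ∨ y = c.β <;> by_cases e' : y' = c.α ∨ y' = c.β
    · rcases h.md.resolve_left l with s | p
      · have := (h.S s).1; omega
      · refine p.rng.1.trans (h.cR l ▸ card_le_card fun m j => mem_Nb.2 ⟨h.rF j, fun t =>
          h.rt_not p (fun z => av z m) j ?_⟩)
        rcases e with rfl | rfl <;> rcases e' with rfl | rfl
        exacts [absurd rfl n, t, t.symm, absurd rfl n]
    · exact mix y e y' b e'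
    · exact Nb_comm (X := X) (f := g) y' y ▸ mix y' e' y a e
    · have := card_le_card (s := X.F \ d.Rt) (t := X.Nb f y y') fun u k => by
        have uF := (mem_sdiff.1 k).1
        refine mem_Nb.2 ⟨uF, fun j => (h.see l u k).elim (fun t => ?_) fun t =>
          n (ok.hl1 uF t a b j.1 j.2)⟩
        have := ok.see3 uF j.1 j.2 t.1 n
        omega
      have := nb y a y' b
      omega
  · have := nm y a
    by_cases e : y ≠ c.α ∨ y ≠ c.β
    · have := h.nm6 ok l a e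
      omega
    obtain rfl : y = c.α := by omega
    have s : c.S := (h.md.resolve_left l).resolve_right fun p => e (.inr (h.P p).1)
    have := card_le_card (h.rt_Nm ok s av)
    have := h.cR l
    have := h.nmS ok s
    have := h.soft.s2
    unfold Sy.S at s
    omega

theorem val (ok : X.OKz) : X.Vy D f :=
  h.locV ok h.av fun κ _ => by
    rw [filter_false_of_mem fun z _ t => t.2 t.1]; simp

end Wy

end Fr

end Pool.Agent.Lib.MP_12eaff_co.Acc2
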