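import Pool.Agent.Lib.MP_12eaff_co.H.M1

set_option autoImplicit false
set_option linter.unusedSectionVars false

namespace Pool.Agent.Lib.MP_12eaff_co.Acc2

open Finset
open scoped Classical

namespace Fr

variable {V : Type} [Fintype V] {X : Fr V} {D : ℕ} {c : Sy V} {d : Dy V} {f g : V → ℕ}
  {m u z w q : V} {y y' k a : ℕ}

/-- The guards only look at the members that are not rooted, and seeing less keeps them. -/
theorem Sfy.mono (h : X.Sfy D c d f) {d' : Dy V} (r0 : c.l = 0 → d.Rt = ∅)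
    (la : c.l ≠ 0 → c.α < D) (e : d'.Rt = d.Rt)
    (s : ∀ w ∈ X.F \ d.Rt, ∀ y < D, X.See g w y → X.See f w y)
    (mo : ∀ w ∈ X.F \ d.Rt, ∀ y < D, X.Mono g w y → X.Mono f w y) : X.Sfy D c d' g := by
  refine ⟨fun l => ?_, fun l y a b b' => (h.s1 l y a b b').trans (card_le_card
    fun w k => ?_), fun l => (h.s2 l).trans (Nat.add_le_add_left (card_le_card fun w k => ?_) _)⟩
  · rw [r0 l, sdiff_empty] at s mo
    obtain ⟨-, s1, s2, s3⟩ := not_gy.1 (h.s0 l)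
    refine not_gy.2 ⟨by omega, fun y a => (s1 y a).trans (card_le_card fun w k => ?_),
      fun y a y' b n => (s2 y a y' b n).trans (card_le_card fun w k => ?_), fun y a b => ?_⟩
    · exact mem_Na.2 ⟨(mem_Na.1 k).1, fun j => (mem_Na.1 k).2 (s w (mem_Na.1 k).1 y a j)⟩
    · exact mem_Nb.2 ⟨(mem_Nb.1 k).1, fun j => (mem_Nb.1 k).2
        ⟨s w (mem_Nb.1 k).1 y a j.1, s w (mem_Nb.1 k).1 y' b j.2⟩⟩
    · have := card_le_card (s := X.Nm f y) (t := X.Nm g y) fun w k =>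
        mem_Nm.2 ⟨(mem_Nm.1 k).1, fun j => (mem_Nm.1 k).2 (mo w (mem_Nm.1 k).1 y a j)⟩
      have := s3 y a
      have := am_le (X := X) (f := f) y
      omega
  · rw [e]
    exact mem_Ns.2 ⟨(mem_Ns.1 k).1, fun j => (mem_Ns.1 k).2 (s w (mem_Ns.1 k).1 y a j)⟩
  · rw [e]
    exact mem_Nt.2 ⟨(mem_Nt.1 k).1, fun j => (mem_Nt.1 k).2
      (mo w (mem_Nt.1 k).1 _ (la (by omega)) j)⟩

namespace Wy

variable (h : X.Wy D c d f)
include h

/-- A hole at a slot of a member that can be pinned is pinned. -/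
theorem hole (ok : X.OKz) (fz : X.Fy c d f) (hz : D ≤ f z) (hm : m ∈ c.Mv) (hs : z ∈ X.sl m) :
    (z, m) ∈ d.pn := by
  have mF := h.subF hm
  have l0 : c.l ≠ 0 := fun e => notMem_empty m (h.r0 e ▸ hm)
  have la := h.la l0
  rcases h.md.resolve_left l0 with s | p
  · have mR : m ∈ d.Rt := by_contra fun n => by
      by_cases l : c.l = 1 ∨ c.l = 4
      exacts [n (h.mv l ▸ hm), ok.hl_mono mF ⟨z, hs, hz⟩ la.1
        (fz.mo (by unfold Sy.S at s; omega) m (mem_sdiff.2 ⟨mF, n⟩))]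
    by_cases j : m ∈ d.Hs
    · exact (h.S s).2.2.2.1 m j z hs
    obtain ⟨x, x1, x2⟩ := fz.w s m mR j
    have xz : x ≠ z := fun j => by subst j; omega
    rcases (h.S s).2.2.2.2 m mR with b | ⟨t, b⟩
    · have : 1 < (X.sl m).card := one_lt_card.2 ⟨x, x1, z, hs, xz⟩
      omega
    · obtain ⟨-, t1, t2⟩ := h.p1 _ _ b
      rcases ok.slot3 mF x1 hs t1 xz with rfl | rfl
      exacts [absurd (x2.trans (h.sgS s _).symm) t2, b]
  · refine (h.P p).2.1 m (by_contra fun n => ?_) z hs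
    have := fz.see l0 m (mem_sdiff.2 ⟨mF, n⟩)
    exact (h.P p).1 (ok.hl1 mF ⟨z, hs, hz⟩ la.1 la.2 this.1 this.2)

theorem soft_off (n : ∀ w ∈ X.F \ d.Rt, z ∉ X.sl w) (y : ℕ) :
    X.Sfy D c d (Function.update f z y) :=
  h.soft.mono h.rt0 (fun l => (h.la l).1) rfl (fun w k _ _ => (see_off (n w k) _ _).1)
    fun w k _ _ => (mono_off (n w k) _ _).1

theorem move (fz : X.Fy c d f) (hz : D ≤ f z)
    (np : ∀ m, (z, m) ∈ d.pn → c.σ m ≠ f u) (s : X.Sfy D c d (Function.update f z (f u))) :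
    X.Wy D c d (shift D f z u) := by
  refine ⟨h.md, h.la, h.sub, h.subF, fun a m k => ⟨(h.p1 a m k).1, (h.p1 a m k).2.1, ?_⟩, h.sg,
    h.r0, h.mv, h.mvF, h.cR, h.S, h.P, fun l w k => ?_, fun l w k => ?_,
    s.mono h.rt0 (fun l => (h.la l).1) rfl (fun w _ y a t => (see_up t).resolve_left (by omega))
      fun w _ y a t => (mono_up t).resolve_right fun j => by omega⟩
  · have := h.pin_lt k
    by_cases au : a = u
    · rw [au, shift_e]; omega
    by_cases az : a = z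
    · subst az
      rw [shift_z au]; exact (np m k).symm
    · rw [shift_o az au]; exact h.av a m k
  · by_cases n : u ∈ X.sl w
    · exact .inr (hl_shift n)
    · exact .inl ⟨see_keep (fz.see l w k).1 (h.la l).1 hz n, see_keep (fz.see l w k).2 (h.la l).2 hz n⟩
  · by_cases n : u ∈ X.sl w
    · exact .inr (hl_shift n)
    · exact .inl (mono_keep (fz.mo l w k) (h.la (by omega)).1 hz n)

omit h in
/-- A set that loses an element by a change at `q` loses exactly `q`. -/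
theorem lose {A B : Finset V} (i : ∀ w ∈ A, w ≠ q → w ∈ B) (l : B.card < A.card) :
    A.card ≤ B.card + 1 ∧ q ∈ A ∧ q ∉ B := by
  refine ⟨card_ins i, by_contra fun j => l.not_ge (card_le_card fun w k => ?_)⟩
  by_cases e : w = q
  · subst e
    exact by_contra fun t => j ⟨k, t⟩
  · exact i w k e

theorem bad0 (ok : X.OKz) (l : c.l = 0) (hq : q ∈ X.F) (hs : z ∈ X.sl q)
    (n : ¬ X.Sfy D c d (Function.update f z y)) : ¬ X.See f q y ∧ (X.Na f y).card ≤ 3 ∨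
      (∃ j < D, y ≠ j ∧ X.See f q j ∧ (X.Nb f y j).card ≤ 6) ∨
      X.See f q y ∧ (X.Nm f y).card ≤ 6 := by
  obtain ⟨-, s1, s2, s3⟩ := not_gy.1 (h.soft.s0 l)
  have o : ∀ w ∈ X.F, w ≠ q → z ∉ X.sl w := fun w a b j => b (ok.dis w a q hq z j hs)
  have t : X.Gy D (Function.update f z y) 1 := by_contra fun j =>
    n ⟨fun _ => j, fun j => absurd l j, fun j => by omega⟩
  rcases t with t | ⟨t, a, b⟩ | ⟨t, a, t', a', ne, b⟩ | ⟨t, a, b, -⟩
  · omega
  · obtain ⟨j1, j2, j3⟩ := lose (q := q) (fun w k j => mem_Na.2 ⟨(mem_Na.1 k).1, fun r =>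
      (mem_Na.1 k).2 ((see_off (o w (mem_Na.1 k).1 j) _ _).1 r)⟩) (b.trans_le (s1 t a))
    have q1 := (mem_Na.1 j2).2
    obtain rfl := (see_up (not_not.1 fun r => j3 (mem_Na.2 ⟨hq, r⟩))).resolve_right q1
    exact .inl ⟨q1, by have : _ < 3 := b; omega⟩
  · obtain ⟨j1, j2, j3⟩ := lose (q := q) (fun w k j => mem_Nb.2 ⟨(mem_Nb.1 k).1, fun r =>
      (mem_Nb.1 k).2 ⟨(see_off (o w (mem_Nb.1 k).1 j) _ _).1 r.1,
        (see_off (o w (mem_Nb.1 k).1 j) _ _).1 r.2⟩⟩) (b.trans_le (s2 t a t' a' ne))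
    obtain ⟨q2, q3⟩ := not_not.1 fun r => j3 (mem_Nb.2 ⟨hq, r⟩)
    have : _ < 6 := b
    rcases see_up q2 with e1 | r2 <;> rcases see_up q3 with e | r3
    · exact absurd (e1.trans e.symm) ne
    · exact .inr (.inl ⟨t', a', e1 ▸ ne, r3, by rw [← e1]; omega⟩)
    · exact .inr (.inl ⟨t, a, e ▸ ne.symm, r2, by rw [← e, Nb_comm]; omega⟩)
    · exact absurd ⟨r2, r3⟩ (mem_Nb.1 j2).2
  · obtain ⟨j1, j2, j3⟩ := lose (q := q) (A := X.Nm f t) (B := X.Nm (Function.update f z y) t)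
      (fun w k j => mem_Nm.2 ⟨(mem_Nm.1 k).1, fun r =>
        (mem_Nm.1 k).2 ((mono_off (o w (mem_Nm.1 k).1 j) _ _).1 r)⟩) (by
        have := s3 t a
        have := am_le (X := X) (f := f) t
        omega)
    obtain ⟨rfl, r⟩ := (mono_up (not_not.1 fun r => j3 (mem_Nm.2 ⟨hq, r⟩))).resolve_left
      (mem_Nm.1 j2).2
    exact .inr (.inr ⟨r, by omega⟩)

theorem bad1 (ok : X.OKz) (l : c.l ≠ 0) (hq : q ∈ X.F) (hs : z ∈ X.sl q)
    (n : ¬ X.Sfy D c d (Function.update f z y)) :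
    y ≠ c.α ∧ q ∈ X.Ns d.Rt f y ∧ (X.Ns d.Rt f y).card ≤ (if c.l = 1 then 4 else 3) ∨
      y = c.α ∧ (c.l = 1 ∨ c.l = 4) ∧ q ∈ X.Nt d.Rt f c.α ∧
        c.k + (X.Nt d.Rt f c.α).card ≤ 6 := by
  have o : ∀ w ∈ X.F \ d.Rt, w ≠ q → z ∉ X.sl w := fun w a b j =>
    b (ok.dis w (mem_sdiff.1 a).1 q hq z j hs)
  by_contra j
  rw [not_or] at j
  refine n ⟨fun j => absurd j l, fun _ t a b b' => by_contra fun r => ?_,
    fun l3 => by_contra fun r => ?_⟩
  · obtain ⟨j1, j2, j3⟩ := lose (q := q) (fun w k j => mem_Ns.2 ⟨(mem_Ns.1 k).1, fun r =>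
      (mem_Ns.1 k).2 ((see_off (o w (mem_Ns.1 k).1 j) _ _).1 r)⟩)
      ((not_le.1 r).trans_le (h.soft.s1 l t a b b'))
    obtain rfl := (see_up (not_not.1 fun r => j3 (mem_Ns.2 ⟨(mem_Ns.1 j2).1, r⟩))).resolve_right
      (mem_Ns.1 j2).2
    exact j.1 ⟨b, j2, by omega⟩
  · obtain ⟨j1, j2, j3⟩ := lose (q := q) (A := X.Nt d.Rt f c.α)
      (B := X.Nt d.Rt (Function.update f z y) c.α) (fun w k j => mem_Nt.2 ⟨(mem_Nt.1 k).1, fun r =>
        (mem_Nt.1 k).2 ((mono_off (o w (mem_Nt.1 k).1 j) _ _).1 r)⟩) (by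
        have := h.soft.s2 l3
        omega)
    obtain ⟨e, -⟩ := (mono_up (not_not.1 fun r => j3 (mem_Nt.2 ⟨(mem_Nt.1 j2).1, r⟩))).resolve_left
      (mem_Nt.1 j2).2
    exact j.2 ⟨e.symm, l3, j2, by omega⟩

/-- At most one colour at the hole breaks the guards. -/
theorem bad_one (ok : X.OKz) (fz : X.Fy c d f) (hz : D ≤ f z) (hy : y < D) (hy' : y' < D)
    (n : ¬ X.Sfy D c d (Function.update f z y)) (n' : ¬ X.Sfy D c d (Function.update f z y')) :
    y = y' := by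
  obtain ⟨q, q1, hs⟩ : ∃ q ∈ X.F \ d.Rt, z ∈ X.sl q := by
    by_contra! j
    exact n (h.soft_off j y)
  have hq := (mem_sdiff.1 q1).1
  have cF := ok.card
  have hl : X.Hl D f q := ⟨z, hs, hz⟩
  by_contra ne
  by_cases l : c.l = 0
  · obtain ⟨-, s1, s2, -⟩ := not_gy.1 (h.soft.s0 l)
    have cov : ∀ A B : Finset V, (∀ w ∈ X.F, w ∉ A → w ∈ B) → 11 ≤ A.card + B.card :=
      fun A B k => cF.trans ((card_le_card fun w j => mem_union.2
        (or_iff_not_imp_left.2 (k w j))).trans (card_union_le _ _))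
    have ab : ∀ {y y' j : ℕ}, y ≠ y' → ¬ X.See f q y → (X.Na f y).card ≤ 3 → y' ≠ j →
        X.See f q j → (X.Nb f y' j).card ≤ 6 → False := fun {y y' j} ne a b e a' b' => by
      have := cov (X.Nb f y' j) (X.Na f y) fun w k1 k2 => by
        have := not_not.1 fun r => k2 (mem_Nb.2 ⟨k1, r⟩)
        exact mem_Na.2 ⟨k1, fun r => (ok.see3 k1 this.1 this.2 r e).elim ne fun t => a (t ▸ a')⟩
      omega
    have am : ∀ {y y' : ℕ}, y ≠ y' → (X.Na f y).card ≤ 3 → (X.Nm f y').card ≤ 6 → False :=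
      fun {y y'} ne a b => by
        have := cov (X.Nm f y') (X.Na f y) fun w k1 k2 =>
          mem_Na.2 ⟨k1, fun r => ne (ok.mono1 k1 (not_not.1 fun r => k2 (mem_Nm.2 ⟨k1, r⟩)) r)⟩
        omega
    have two : ∀ (A B : Finset V) j, j < D → A.card ≤ 6 → B.card ≤ 6 →
        (∀ w ∈ X.F, w ∉ A → X.See f w j) → (∀ w ∈ X.F, w ∉ B → X.See f w j) →
        (∀ w ∈ X.F, w ∉ A → w ∈ B) → False := fun A B j lj a b sa sb dj => by
      have sb' : ∀ C : Finset V, (∀ w ∈ X.F, w ∉ C → X.See f w j) → X.F \ C ⊆ X.F \ X.Na f j :=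
        fun C k w i => mem_sdiff.2 ⟨(mem_sdiff.1 i).1, fun r =>
          (mem_Na.1 r).2 (k w (mem_sdiff.1 i).1 (mem_sdiff.1 i).2)⟩
      have a1 := card_le_card (union_subset (sb' A sa) (sb' B sb))
      rw [card_union_of_disjoint (disjoint_left.2 fun w k k' =>
        (mem_sdiff.1 k').2 (dj w (mem_sdiff.1 k).1 (mem_sdiff.1 k).2))] at a1
      have := le_card_sdiff A X.F
      have := le_card_sdiff B X.F
      have : (X.F \ X.Na f j).card + (X.Na f j).card = X.F.card :=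
        card_sdiff_add_card_eq_card (filter_subset _ _)
      have : 3 ≤ _ := s1 j lj
      omega
    have bo : ∀ t j, ∀ w ∈ X.F, w ∉ X.Nb f t j → X.See f w t ∧ X.See f w j := fun t j w k i =>
      not_not.1 fun r => i (mem_Nb.2 ⟨k, r⟩)
    have mo : ∀ t, ∀ w ∈ X.F, w ∉ X.Nm f t → X.Mono f w t := fun t w k i =>
      not_not.1 fun r => i (mem_Nm.2 ⟨k, r⟩)
    have bm : ∀ {y j : ℕ}, j < D → y ≠ j → (X.Nb f y j).card ≤ 6 → (X.Nm f j).card ≤ 6 → False :=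
      fun {y j} lj e a b => two _ _ j lj a b (fun w k i => (bo y j w k i).2)
        (fun w k i => (mo j w k i).see) fun w k i =>
          mem_Nm.2 ⟨k, fun r => e (ok.mono1 k r (bo y j w k i).1)⟩
    rcases h.bad0 ok l hq hs n with ⟨a, b⟩ | ⟨j, lj, e, a, b⟩ | ⟨a, b⟩ <;>
      rcases h.bad0 ok l hq hs n' with ⟨a', b'⟩ | ⟨j', lj', e', a', b'⟩ | ⟨a', b'⟩
    · have : 6 ≤ _ := s2 y hy y' hy' ne
      have := card_le_card (s := X.Nb f y y') (t := X.Na f y ∪ X.Na f y') fun w k => by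
        rw [mem_union, mem_Na, mem_Na]
        have := mem_Nb.1 k
        tauto
      have := card_union_add_card_inter (X.Na f y) (X.Na f y')
      have := card_pos.2 ⟨q, mem_inter.2 ⟨mem_Na.2 ⟨hq, a⟩, mem_Na.2 ⟨hq, a'⟩⟩⟩
      omega
    · exact ab ne a b e' a' b'
    · exact am ne b b'
    · exact ab (Ne.symm ne) a' b' e a b
    · obtain rfl := ok.hl1 hq hl lj lj' a a'
      exact two _ _ j lj b b' (fun w k i => (bo y j w k i).2) (fun w k i => (bo y' j w k i).2)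
        fun w k i => mem_Nb.2 ⟨k, fun r =>
          (ok.see3 k (bo y j w k i).1 r.1 r.2 ne).elim e.symm e'.symm⟩
    · obtain rfl := ok.hl1 hq hl lj hy' a a'
      exact bm lj e b b'
    · exact am (Ne.symm ne) b' b
    · obtain rfl := ok.hl1 hq hl lj' hy a' a
      exact bm lj' e' b' b
    · exact ne (ok.hl1 hq hl hy hy' a a')
  have s : c.S := (h.md.resolve_left l).resolve_right fun p => (h.P p).1
    (ok.hl1 hq hl (h.la l).1 (h.la l).2 (fz.see l q q1).1 (fz.see l q q1).2)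
  have l7 : ¬ 7 ≤ c.l := fun j => ok.hl_mono hq hl (h.la l).1 (fz.mo j q q1)
  have bg := h.big ok l
  have cov : ∀ A B : Finset V, q ∈ A → q ∈ B → (∀ w ∈ X.F \ d.Rt, w ∉ A → w ∈ B) →
      (X.F \ d.Rt).card + 1 ≤ A.card + B.card := fun A B a b k => by
    have := card_le_card (s := X.F \ d.Rt) (t := A ∪ B) fun w j =>
      mem_union.2 (or_iff_not_imp_left.2 (k w j))
    have := card_union_add_card_inter A B
    have := card_pos.2 ⟨q, mem_inter.2 ⟨a, b⟩⟩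
    omega
  have am : ∀ {y : ℕ}, y ≠ c.α → q ∈ X.Ns d.Rt f y →
      (X.Ns d.Rt f y).card ≤ (if c.l = 1 then 4 else 3) → q ∈ X.Nt d.Rt f c.α →
      c.k + (X.Nt d.Rt f c.α).card ≤ 6 → False := fun {y} a b b' r r' => by
    have := cov _ _ r b fun w k j => mem_Ns.2 ⟨k, fun t => a (ok.mono1 (mem_sdiff.1 k).1
      (not_not.1 fun r => j (mem_Nt.2 ⟨k, r⟩)) t)⟩
    split_ifs at b' <;> omega
  rcases h.bad1 ok l hq hs n with ⟨a, b, b1⟩ | ⟨a, -, b, b1⟩ <;>
    rcases h.bad1 ok l hq hs n' with ⟨a', b', b1'⟩ | ⟨a', -, b', b1'⟩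
  · have := cov _ _ b b' fun w k j => mem_Ns.2 ⟨k, fun t => (ok.see3 (mem_sdiff.1 k).1
      (not_not.1 fun r => j (mem_Ns.2 ⟨k, r⟩)) t (fz.see l w k).1 ne).elim a.symm a'.symm⟩
    unfold Sy.S at s
    split_ifs at b1 b1' <;> omega
  exacts [am a b b1 b' b1', am a' b' b1' b b1, ne (a.trans a'.symm)]

end Wy

end Fr

end Pool.Agent.Lib.MP_12eaff_co.Acc2
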