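import Pool.Agent.Lib.MP_12eaff_co.H.M4
import Pool.Agent.Lib.MP_12eaff_co.G.St

set_option autoImplicit false
set_option linter.unusedSectionVars false

namespace Pool.Agent.Lib.MP_12eaff_co.Acc2

open Finset Pool.Agent.Lib.MP_12eaff_co.BK
open scoped Classical

variable {V : Type} [Fintype V] {G : SimpleGraph V} {D : ℕ}

/-- Cliques, fronts, parked holes, levels; no valid colouring fills all other vertices, and no
valid colouring with one hole has smaller levels. -/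
structure Cy (G : SimpleGraph V) (D : ℕ) where
  U : Finset V
  P : Finset V
  F : Finset V
  𝒦 : Finset (Finset V)
  cq : V → Finset V
  sd : Finset V → Sy V
  d0 : Finset V → Dy V
  hU : ∀ v ∈ U, cq v ∈ 𝒦 ∧ v ∈ cq v
  sub : ∀ K ∈ 𝒦, ∀ v ∈ K, v ∈ U ∧ cq v = K
  ok : ∀ K ∈ 𝒦, (frK G F (U ∪ P) K).OKz
  ry : ∀ K ∈ 𝒦, (frK G F (U ∪ P) K).Ry (sd K) (d0 K)
  min : ∀ g : V → ℕ, (∀ a, a ∉ U ∪ P → g a < D) →
    (∀ a b, a ∉ U ∪ P → b ∉ U ∪ P → G.Adj a b → g a ≠ g b) →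
    ¬ ∀ K ∈ 𝒦, (frK G F (U ∪ P) K).Vy D g
  min2 : ∀ z g, OneH G D (U ∪ P) z g → (∀ K ∈ 𝒦, (frK G F (U ∪ P) K).Vy D g) →
    ∑ K ∈ 𝒦, (sd K).l ≤ ∑ K ∈ 𝒦, (frK G F (U ∪ P) K).levy D g

namespace Cy

variable (C : Cy G D)

noncomputable abbrev fr (K : Finset V) : Fr V := frK G C.F (C.U ∪ C.P) K

theorem mem_sl {K : Finset V} {w z : V} : z ∈ (C.fr K).sl w ↔ G.Adj w z ∧ z ∉ C.U ∪ C.P := by
  simp only [frK, mem_sdiff, mem_nb]

theorem F_sub {K : Finset V} {w : V} (h : w ∈ (C.fr K).F) : w ∈ K := (mem_inter.1 h).1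

/-- Levels that do not rise are constant. -/
theorem gl {z : V} {g : V → ℕ} (o : OneH G D (C.U ∪ C.P) z g)
    (h : ∀ K ∈ C.𝒦, (C.fr K).Vy D g ∧ (C.fr K).levy D g ≤ (C.sd K).l) {K : Finset V}
    (hK : K ∈ C.𝒦) : (C.fr K).Gy D g (C.sd K).l :=
  Fr.gy_of_le (not_lt.1 fun l => (C.min2 z g o fun K k => (h K k).1).not_gt
    (sum_lt_sum (fun K k => (h K k).2) ⟨K, hK, l⟩))

/-- States. -/
structure St where
  z : V
  q : V
  f : V → ℕ
  dat : Finset V → Dy V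
  one : OneH G D (C.U ∪ C.P) z f
  rpar : q ∉ C.U ∪ C.P
  par_ne : ∀ u, u ∉ C.U ∪ C.P → G.Adj z u → u ≠ q → f u ≠ f q
  inv : ∀ K ∈ C.𝒦, (C.fr K).Wy D (C.sd K) (dat K) f
  p5 : ∀ K ∈ C.𝒦, ∀ w, (z, w) ∈ (dat K).pn → G.Adj z q → (C.sd K).σ w ≠ f q

variable {C}

namespace St

variable (s : C.St)

theorem fz {K : Finset V} (hK : K ∈ C.𝒦) : (C.fr K).Fy (C.sd K) (s.dat K) s.f :=
  (s.inv K hK).fz (C.ok K hK) (C.gl s.one (fun K k => ⟨(s.inv K k).val (C.ok K k),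
    Fr.levy_le ((s.inv K k).low (C.ok K k))⟩) hK)

/-- The pin of the port from `a` to `m`. -/
noncomputable def pin (a m : V) : ℕ :=
  if m ∈ C.U ∧ (a, m) ∈ (s.dat (C.cq m)).pn then (C.sd (C.cq m)).σ m else D + 1

/-- The colour `y` at the hole breaks a guard of the clique of `m`. -/
def Bad (m : V) (y : ℕ) : Prop := m ∈ C.U ∧ m ∉ (s.dat (C.cq m)).Rt ∧ y < D ∧ y ≠ s.f s.q ∧
  ¬ (C.fr (C.cq m)).Sfy D (C.sd (C.cq m)) (s.dat (C.cq m)) (Function.update s.f s.z y)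

/-- Displayed colours. -/
noncomputable def port (a m : V) : ℕ :=
  if h : a = s.z ∧ m ∈ C.F ∧ ∃ y, s.Bad m y then h.2.2.choose else s.pin a m

variable {s} {K : Finset V} {a m w e u q : V} {y : ℕ}

theorem pin_cases (s : C.St) (a m : V) : s.pin a m = D + 1 ∨ s.pin a m < D ∧ m ∈ C.U ∧
    (a, m) ∈ (s.dat (C.cq m)).pn ∧ s.pin a m = (C.sd (C.cq m)).σ m ∧ s.f a ≠ s.pin a m := by
  rw [pin]
  split_ifs with k
  · have i := s.inv _ (C.hU m k.1).1
    exact .inr ⟨i.pin_lt k.2, k.1, k.2, rfl, i.av _ _ k.2⟩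
  · exact .inl rfl

theorem pn_spec (hK : K ∈ C.𝒦) (h : (a, m) ∈ (s.dat K).pn) :
    m ∈ K ∧ m ∈ C.U ∧ C.cq m = K ∧ G.Adj m a ∧ a ∉ C.U ∪ C.P ∧ s.pin a m = (C.sd K).σ m ∧
      (C.sd K).σ m < D := by
  have i := s.inv K hK
  obtain ⟨e1, e2, -⟩ := i.p1 a m h
  have k := C.F_sub (i.rF e1)
  obtain ⟨k1, k2⟩ := C.sub K hK m k
  exact ⟨k, k1, k2, (C.mem_sl.1 e2).1, (C.mem_sl.1 e2).2, by rw [pin, k2, if_pos ⟨k1, h⟩],
    i.pin_lt h⟩

theorem port_cases (s : C.St) (a m : V) :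
    s.port a m = s.pin a m ∨ a = s.z ∧ s.pin a m = D + 1 ∧ s.Bad m (s.port a m) := by
  unfold port
  split_ifs with h
  · have b := h.2.2.choose_spec
    exact .inr ⟨h.1, (s.pin_cases a m).resolve_right fun k =>
      b.2.1 ((s.inv _ (C.hU m b.1).1).p1 _ _ k.2.2.1).1, b⟩
  · exact .inl rfl

theorem port_pin (h : s.pin a m < D) : s.port a m = s.pin a m :=
  (s.port_cases a m).resolve_right fun k => by omega

theorem port_test (h : a ≠ s.z) : s.port a m = s.pin a m :=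
  (s.port_cases a m).resolve_right fun k => h k.1

theorem port_pn (hK : K ∈ C.𝒦) (h : (a, m) ∈ (s.dat K).pn) : s.port a m = (C.sd K).σ m := by
  obtain ⟨_, _, _, _, _, e, l⟩ := pn_spec hK h
  rw [port_pin (e ▸ l), e]

/-- A colour that no port of the hole into `K` shows may be taken. -/
theorem inv_take (hK : K ∈ C.𝒦) (l : s.f u < D) (n : s.f u ≠ s.f s.q)
    (h : ∀ m ∈ K, G.Adj s.z m → s.port s.z m ≠ s.f u) :
    (C.fr K).Wy D (C.sd K) (s.dat K) (shift D s.f s.z u) := by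
  have i := s.inv K hK
  refine i.move (s.fz hK) s.one.hole.ge (fun w e => ?_) (by_contra fun b => ?_)
  · obtain ⟨a1, _, _, a3, _⟩ := pn_spec hK e
    exact port_pn hK e ▸ h w a1 a3.symm
  · obtain ⟨w, w1, w3⟩ : ∃ w ∈ (C.fr K).F \ (s.dat K).Rt, s.z ∈ (C.fr K).sl w := by
      by_contra! k
      exact b (i.soft_off k _)
    obtain ⟨w1, w2⟩ := mem_sdiff.1 w1
    obtain ⟨k1, k2⟩ := C.sub K hK w (C.F_sub w1)
    have c : s.z = s.z ∧ w ∈ C.F ∧ ∃ y, s.Bad w y :=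
      ⟨rfl, (mem_inter.1 w1).2, _, k1, k2 ▸ w2, l, n, k2 ▸ b⟩
    have d := c.2.2.choose_spec
    refine h w (C.F_sub w1) (C.mem_sl.1 w3).1.symm ?_
    rw [port, dif_pos c]
    exact i.bad_one (C.ok K hK) (s.fz hK) s.one.hole.ge d.2.2.1 l (k2 ▸ d.2.2.2.2) b

/-- The hole takes the colour of `u`. -/
noncomputable def mk' (s : C.St) (u : V) (hu : u ∉ C.U ∪ C.P) (ne : u ≠ s.z)
    (uq : ∀ m, m ∉ C.U ∪ C.P → G.Adj s.z m → m ≠ u → s.f m ≠ s.f u) (dat : Finset V → Dy V)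
    (inv : ∀ K ∈ C.𝒦, (C.fr K).Wy D (C.sd K) (dat K) (shift D s.f s.z u))
    (p5 : ∀ K ∈ C.𝒦, ∀ w, (u, w) ∈ (dat K).pn → G.Adj u s.z →
      (C.sd K).σ w ≠ s.f u) : C.St where
  z := u
  q := s.z
  f := shift D s.f s.z u
  dat := dat
  one := s.one.shift hu ne uq
  rpar := s.one.real
  par_ne m p e k := by
    have := s.one.prop u m hu p e
    have := e.ne
    simp only [shift, Function.update_apply]
    split_ifs <;> grind
  inv := inv
  p5 K hK w l e := by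
    have := p5 K hK w l e
    rwa [shift, Function.update_of_ne ne.symm, Function.update_self]

/-- Real arcs. -/
def Arc (s : C.St) (u : V) : Prop := u ∉ C.U ∪ C.P ∧ G.Adj s.z u ∧ u ≠ s.q ∧
  (∀ m, m ∉ C.U ∪ C.P → G.Adj s.z m → m ≠ u → s.f m ≠ s.f u) ∧
    ∀ m ∈ C.U, G.Adj s.z m → s.port s.z m ≠ s.f u

noncomputable def mv (s : C.St) (u : V) (h : s.Arc u) : C.St :=
  s.mk' u h.1 h.2.1.ne' h.2.2.2.1 s.dat
    (fun K hK => inv_take hK (s.one.full u h.1 h.2.1.ne') (s.par_ne u h.1 h.2.1 h.2.2.1)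
      fun m k => h.2.2.2.2 m (C.sub K hK m k).1)
    fun K hK w l _ => ((s.inv K hK).av u w l).symm

/-- The hole misses the colour of its pinned port at the member `q` of `K` everywhere else. -/
structure Ent (s : C.St) (K : Finset V) (q : V) : Prop where
  pn : (s.z, q) ∈ (s.dat K).pn
  ms : ∀ m, m ∉ C.U ∪ C.P → G.Adj s.z m → s.f m ≠ (C.sd K).σ q
  mp : ∀ m ∈ C.U, m ∉ K → G.Adj s.z m → s.port s.z m ≠ (C.sd K).σ q

/-- Entries of the second kind. -/
def MT (s : C.St) (K : Finset V) (q : V) : Prop := (C.sd K).S ∧ 7 ≤ (C.sd K).l ∧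
  (C.sd K).k = 4 ∧ (C.sd K).i ≤ 3 ∧ q ∉ (s.dat K).Hs

/-- Passage through `K` with exit `e` at the member `w`. -/
structure Pass (s : C.St) (e : V) (t : C.St) (K : Finset V) (w : V) : Prop where
  hK : K ∈ C.𝒦
  hw : w ∈ (C.sd K).Mv
  he : e ∈ (C.fr K).sl w
  col : s.f e = (C.sd K).σ w
  ent : ∃ q, s.Ent K q ∧ (C.sd K).σ q ≠ s.f s.q ∧
    (s.dat K = C.d0 K ∧ q ∈ (C.sd K).En (C.d0 K) ∨ s.MT K q)
  na : ¬ G.Adj s.z e
  np : s.f e ≠ s.f s.q
  z : t.z = e
  q : t.q = s.z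
  f : t.f = shift D s.f s.z e
  off : ∀ K', K' ≠ K → t.dat K' = s.dat K'
  step : Fr.Sty (C.sd K) (s.dat K) (t.dat K) w e

theorem pass_of (hK : K ∈ C.𝒦) (en : s.Ent K q) (nq : (C.sd K).σ q ≠ s.f s.q)
    (ty : s.dat K = C.d0 K ∧ q ∈ (C.sd K).En (C.d0 K) ∨ s.MT K q)
    (σ : (C.sd K).σ w = (C.sd K).σ q) (x : (C.fr K).Exy D (C.sd K) (s.dat K) s.f s.z w e) :
    ∃ t, s.Pass e t K w := by
  have r := (C.mem_sl.1 x.sl).2
  have c := x.col.trans σ
  have l : s.f e < D := c ▸ (s.inv K hK).pin_lt en.pn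
  have np : s.f e ≠ s.f s.q := c ▸ nq
  have na : ¬ G.Adj s.z e := fun k => en.ms e r k c
  have ne : e ≠ s.z := fun k => by rw [k, s.one.hole] at l; omega
  have uq : ∀ m, m ∉ C.U ∪ C.P → G.Adj s.z m → m ≠ e → s.f m ≠ s.f e := fun m a b _ =>
    c ▸ en.ms m a b
  have ot : ∀ K' ∈ C.𝒦, K' ≠ K → (C.fr K').Wy D (C.sd K') (s.dat K') (shift D s.f s.z e) :=
    fun K' hK' k => inv_take hK' l np fun m a b => c ▸ en.mp m (C.sub K' hK' m a).1
      (fun b => k ((C.sub K' hK' m a).2.symm.trans (C.sub K hK m b).2)) b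
  rcases x.nx with ⟨d, i, st⟩ | ⟨v, n⟩
  · refine ⟨s.mk' e r ne uq (Function.update s.dat K d) (fun K' hK' => ?_)
      fun K' hK' m p j => absurd j.symm na,
      hK, x.mv, x.sl, x.col, ⟨q, en, nq, ty⟩, na, np, rfl, rfl, rfl,
      fun K' k => Function.update_of_ne k _ _, ?_⟩
    · by_cases k : K' = K
      · rw [k, Function.update_self]; exact i
      · rw [Function.update_of_ne k]; exact ot K' hK' k
    · simpa only [mk', Function.update_self] using st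
  · refine absurd (C.gl (s.one.shift r ne uq) (fun K' hK' => ?_) hK) n
    by_cases k : K' = K
    · subst k
      refine ⟨v, ?_⟩
      generalize (C.sd K').l = j at n
      rcases j with _ | j
      exacts [absurd (.inl rfl) n, (Fr.levy_le n).trans (Nat.le_succ j)]
    · exact ⟨(ot K' hK' k).val (C.ok K' hK'), Fr.levy_le ((ot K' hK' k).low (C.ok K' hK'))⟩

noncomputable def nx (s : C.St) (u : V) : C.St :=
  if h : s.Arc u then s.mv u h else if h : ∃ t K w, s.Pass u t K w then h.choose else s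

theorem nx_arc (h : s.Arc u) : s.nx u = s.mv u h := dif_pos h

theorem nx_pass (h : ∃ t K w, s.Pass u t K w) : ∃ K w, s.Pass u (s.nx u) K w := by
  have n : ¬ s.Arc u := fun k => by obtain ⟨_, _, _, p⟩ := h; exact p.na k.2.1
  rw [nx, dif_neg n, dif_pos h]
  exact h.choose_spec

/-- A colouring that avoids the pins of `K` and gains every colour at most twice is valid at
`K`. -/
theorem val (s : C.St) (hK : K ∈ C.𝒦) {g : V → ℕ}
    (av : ∀ a m, (a, m) ∈ (s.dat K).pn → g a ≠ (C.sd K).σ m) {A : Finset V}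
    (hA : ∀ a, a ∉ C.U ∪ C.P → (∃ m ∈ C.U, G.Adj a m) → g a ≠ s.f a → a ∈ A)
    (gn : ∀ κ < D, (A.filter fun a => g a = κ ∧ s.f a ≠ κ).card ≤ 2) : (C.fr K).Vy D g := by
  refine (s.inv K hK).locV (C.ok K hK) av fun κ l => (card_le_card fun a k => ?_).trans (gn κ l)
  obtain ⟨k1, k2⟩ := mem_filter.1 k
  obtain ⟨w, w1, w2⟩ := mem_biUnion.1 k1
  obtain ⟨w3, w4⟩ := C.mem_sl.1 w2
  exact mem_filter.2 ⟨hA a w4 ⟨w, (C.sub K hK w (C.F_sub w1)).1, w3.symm⟩
    fun e => k2.2 (e ▸ k2.1), k2⟩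

/-- A colour that the hole misses on real vertices and on the pins outside `K` is invalid at
`K`. -/
theorem fill (s : C.St) (l : y < D) (ms : ∀ m, m ∉ C.U ∪ C.P → G.Adj s.z m → s.f m ≠ y)
    (mp : ∀ m ∈ C.U, C.cq m ≠ K → G.Adj s.z m → s.pin s.z m ≠ y) :
    K ∈ C.𝒦 ∧ ¬ (C.fr K).Vy D (Function.update s.f s.z y) := by
  by_contra n
  refine C.min (Function.update s.f s.z y) (fun a p => ?_) (fun a b p q e => ?_) fun K' hK' => ?_
  · by_cases k : a = s.z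
    · rw [k, Function.update_self]; exact l
    · rw [Function.update_of_ne k]; exact s.one.full a p k
  · have := s.one.prop a b p q e
    have := ms a p
    have := ms b q
    have := e.symm
    have := e.ne
    simp only [Function.update_apply]
    split_ifs <;> grind
  · by_cases k : K' = K
    · exact by_contra fun b => n ⟨k ▸ hK', k ▸ b⟩
    · refine s.val hK' (fun a m p => ?_) (A := {s.z}) (fun a _ _ e => mem_singleton.2 ?_)
        fun κ _ => (card_filter_le _ _).trans (by simp)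
      · by_cases c : a = s.z
        · subst c
          obtain ⟨_, a1, a2, a3, _, a4, _⟩ := pn_spec hK' p
          rw [Function.update_self, ← a4]
          exact (mp m a1 (a2.symm ▸ k) a3.symm).symm
        · rw [Function.update_of_ne c]
          exact (s.inv K' hK').av a m p
      · by_contra c; exact e (Function.update_of_ne c _ _)

theorem Ent.alt (hK : K ∈ C.𝒦) (en : s.Ent K q) :
    q ∈ (C.sd K).En (s.dat K) ∨ s.MT K q := by
  have i := s.inv K hK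
  exact i.ent (C.ok K hK) (s.fz hK) en.pn (s.fill (K := K) (i.pin_lt en.pn) en.ms fun m a b c j =>
    en.mp m a (fun t => b (C.sub K hK m t).2) c
      ((port_pin (j ▸ i.pin_lt en.pn)).trans j)).2

theorem Ent.exE (hK : K ∈ C.𝒦) (en : s.Ent K q) (nq : (C.sd K).σ q ≠ s.f s.q)
    (rt : s.dat K = C.d0 K) (hq : q ∈ (C.sd K).En (C.d0 K)) : ∃ M : Finset V,
      ((C.sd K).En (C.d0 K)).card + 2 ≤ M.card ∧
      ∀ u ∈ M, (C.sd K).σ u = (C.sd K).σ q ∧ ∃ e t, s.Pass e t K u := by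
  obtain ⟨M, a, b⟩ := (s.inv K hK).entE (C.ok K hK) (s.fz hK) (rt ▸ C.ry K hK) s.one.hole.ge
    en.pn (rt ▸ hq)
  refine ⟨M, rt ▸ a, fun u k => ?_⟩
  obtain ⟨j, e, x⟩ := b u k
  exact ⟨j, e, pass_of hK en nq (.inl ⟨rt, hq⟩) j x⟩

theorem Ent.exN (hK : K ∈ C.𝒦) (en : s.Ent K q) (nq : (C.sd K).σ q ≠ s.f s.q) (mt : s.MT K q) :
    ∃ A : Finset (V × V), 14 ≤ A.card ∧ ∀ p ∈ A, ∃ t, s.Pass p.1 t K p.2 := by
  obtain ⟨A, a, b⟩ := (s.inv K hK).entN (C.ok K hK) (s.fz hK) s.one.hole.ge en.pn mt.1 mt.2.1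
    mt.2.2.1 mt.2.2.2.2
  exact ⟨A, a, fun p k => pass_of hK en nq (.inr mt) (b p k).1 (b p k).2⟩

end St

variable (C)

/-- The rules. -/
noncomputable def rules : PRules G D C.U C.P C.St where
  hole := St.z
  par := St.q
  f := St.f
  port := St.port
  X s := univ.filter fun u => ∃ t K w, s.Pass u t K w
  wt _ _ := 3
  nx := St.nx
  real s := s.one.real
  rpar := St.rpar
  f_hole s := s.one.hole
  prop s := s.one.prop
  full s := s.one.full
  port_ne s a m := by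
    rcases s.port_cases a m with e | ⟨_, _, e⟩
    · rcases s.pin_cases a m with k | k <;> omega
    · exact e.2.2.1.ne
  port_ok s a m _ _ _ := by
    have := s.one.hole
    by_cases c : a = s.z
    · rcases s.port_cases a m with e | ⟨_, _, e⟩
      · rcases s.pin_cases a m with k | k <;> rw [c] at * <;> omega
      · have := e.2.2.1; rw [c] at *; omega
    · have := s.one.full a ‹_› c
      rw [St.port_test c]
      rcases s.pin_cases a m with k | k
      exacts [by omega, k.2.2.2.2.symm]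
  wt3 _ _ := le_rfl
  X_real s u k := by
    obtain ⟨_, _, _, p⟩ := (mem_filter.1 k).2
    exact ⟨(C.mem_sl.1 p.he).2, p.na, p.np⟩
  par_ne := St.par_ne
  own_par s m k _ a := by
    rcases s.port_cases s.z m with e | ⟨_, _, e⟩
    · have := s.one.full s.q s.rpar a.ne'
      rcases s.pin_cases s.z m with j | j
      · omega
      · rw [e, j.2.2.2.1]
        exact s.p5 _ (C.hU m k).1 m j.2.2.1 a
    · exact e.2.2.2.1
  nx_ok s u k := by
    rcases k with k | k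
    · obtain ⟨_, _, p⟩ := St.nx_pass (mem_filter.1 k).2
      exact ⟨p.z, p.q, fun m _ => congrFun p.f m⟩
    · rw [St.nx_arc k]; exact ⟨rfl, rfl, fun _ _ => rfl⟩

/-- The root state. -/
def Root (s0 : C.St) : Prop := s0.q = s0.z ∧ ∀ K ∈ C.𝒦, s0.dat K = C.d0 K

theorem rel (s : C.St) : C.rules.Rel 2 s := fun g a b c d _ =>
  C.min g a b fun K hK => s.val hK (fun z m p => by
      obtain ⟨_, k0, _, k1, k2, _⟩ := St.pn_spec hK p
      exact St.port_pn hK p ▸ c z m k2 k0 k1.symm)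
    (A := univ.filter fun a => a ∉ C.U ∪ C.P ∧ ∃ m ∈ C.U ∪ C.P, G.Adj a m)
    (fun a p ⟨m, q, r⟩ _ => mem_filter.2 ⟨mem_univ _, p, m, mem_union_left _ q, r⟩)
    fun κ l => by
      simp only [filter_filter, and_assoc]
      exact d κ l

end Cy

end Pool.Agent.Lib.MP_12eaff_co.Acc2
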